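import Pool.Agent.W78.GC.Defs
import Pool.Agent.W240.GA.A0

/-!
Tasks GC-5, GC-6 (project GC, helper78): mean of the window over coloured primitive elements.
Adapted from W240/GA/A0.
-/

set_option autoImplicit false

namespace Pool.Agent.W578.GC.A0C

open Finset Filter
open Pool.Agent.H376R2.MR (w)
open Pool.Agent.W78.GA
open Pool.Agent.W78.GC
open Pool.Agent.W240.GA.A0 hiding bg_nonneg kap_pos

variable {t c : ℤ}

open scoped Classical in
/-- the sum over all vectors with property `P` -/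
noncomputable def TP (P : Qd t c → Prop) (Y : ℝ) : ℝ :=
  ∑ z ∈ (ball t c (Real.exp 1 * Y)).filter P, bg Y z

lemma TP_nonneg (P : Qd t c → Prop) (Y : ℝ) : 0 ≤ TP P Y := sum_nonneg fun z _ => bg_nonneg Y z

lemma TP_le_TT (P : Qd t c → Prop) (Y : ℝ) : TP P Y ≤ TT t c Y := by
  classical
  unfold TP TT
  exact sum_le_sum_of_subset_of_nonneg (filter_subset _ _) fun z _ _ => bg_nonneg Y z

open scoped Classical in
lemma step_sumP (hD : t ^ 2 < 4 * c) (P : Qd t c → Prop) {Y θ : ℝ} (hY : 0 < Y) (ht : θ ≤ 1) :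
    ∑ z ∈ (ball t c (Real.exp 1 * Y)).filter P, (if -θ < Real.log (nm z) - Real.log Y ∧
      Real.log (nm z) - Real.log Y ≤ θ then (1 : ℝ) else 0) / nm z =
    ∑ z ∈ (ann t c (Y * Real.exp (-θ)) (Y * Real.exp θ)).filter P, 1 / (nm z : ℝ) := by
  have h1 : ann t c (Y * Real.exp (-θ)) (Y * Real.exp θ) = (ball t c (Real.exp 1 * Y)).filter
      (fun z => -θ < Real.log (nm z) - Real.log Y ∧ Real.log (nm z) - Real.log Y ≤ θ) := by
    ext z
    rw [mem_ann hD, mem_filter, mem_ball hD]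
    by_cases hz : 1 ≤ nm z
    · have hz' : (0 : ℝ) < nm z := by exact_mod_cast hz
      have e1 : Y * Real.exp (-θ) < nm z ↔ -θ < Real.log (nm z) - Real.log Y := by
        rw [lt_sub_iff_add_lt, ← Real.exp_lt_exp (x := -θ + Real.log Y), Real.exp_add,
          Real.exp_log hY, Real.exp_log hz', mul_comm]
      have e2 : (nm z : ℝ) ≤ Y * Real.exp θ ↔ Real.log (nm z) - Real.log Y ≤ θ := by
        rw [sub_le_iff_le_add, ← Real.exp_le_exp (y := θ + Real.log Y), Real.exp_add,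
          Real.exp_log hY, Real.exp_log hz', mul_comm Y]
      rw [e1, e2]
      constructor
      · rintro ⟨a, b, c₁⟩
        refine ⟨⟨a, ?_⟩, b, c₁⟩
        rw [← e2] at c₁
        refine c₁.trans ?_
        rw [mul_comm]
        exact mul_le_mul_of_nonneg_right (Real.exp_le_exp.2 ht) hY.le
      · rintro ⟨⟨a, -⟩, b, c₁⟩
        exact ⟨a, b, c₁⟩
    · constructor
      · rintro ⟨a, -⟩; exact absurd a hz
      · rintro ⟨⟨a, -⟩, -⟩; exact absurd a hz
  rw [h1, filter_comm, sum_filter (s := (ball t c (Real.exp 1 * Y)).filter P)]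
  apply sum_congr rfl
  intro z _
  split_ifs <;> simp

/-- the asymptotic formula for the elements with property `P` -/
def Asy (P : Qd t c → Prop) (κ C : ℝ) : Prop :=
  open scoped Classical in ∀ A B : ℝ, 1 ≤ A → A ≤ B →
      |∑ z ∈ (ann t c A B).filter P, 1 / (nm z : ℝ) - κ * Real.log (B / A)| ≤ C / Real.sqrt A

open scoped Classical in
lemma ann_boundP (P : Qd t c → Prop) {κ C : ℝ} (hC : 0 < C) (hl : Asy P κ C)
    {Y θ : ℝ} (hY : Real.exp 1 ≤ Y) (ht0 : 0 ≤ θ) (ht : θ ≤ 1) :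
    |∑ z ∈ (ann t c (Y * Real.exp (-θ)) (Y * Real.exp θ)).filter P, 1 / (nm z : ℝ) - 2 * κ * θ| ≤
      C / Real.sqrt (Y / Real.exp 1) := by
  have hY0 : 0 < Y := (Real.exp_pos 1).trans_le hY
  have hA : Y / Real.exp 1 ≤ Y * Real.exp (-θ) := by
    rw [div_eq_mul_inv, ← Real.exp_neg]
    exact mul_le_mul_of_nonneg_left (Real.exp_le_exp.2 (by linarith)) hY0.le
  have hA1 : 1 ≤ Y / Real.exp 1 := by rwa [one_le_div (Real.exp_pos 1)]
  have h1 := hl (Y * Real.exp (-θ)) (Y * Real.exp θ) (hA1.trans hA)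
    (mul_le_mul_of_nonneg_left (Real.exp_le_exp.2 (by linarith)) hY0.le)
  have h2 : Real.log (Y * Real.exp θ / (Y * Real.exp (-θ))) = 2 * θ := by
    rw [mul_div_mul_left _ _ hY0.ne', ← Real.exp_sub, Real.log_exp]; ring
  rw [h2, show κ * (2 * θ) = 2 * κ * θ by ring] at h1
  refine h1.trans ?_
  apply div_le_div_of_nonneg_left hC.le (Real.sqrt_pos.2 (by linarith))
  exact Real.sqrt_le_sqrt hA

open scoped Classical in
lemma TP_le (hD : t ^ 2 < 4 * c) (P : Qd t c → Prop) {κ C : ℝ} (hC : 0 < C) (hl : Asy P κ C)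
    {Y : ℝ} (hY : Real.exp 1 ≤ Y) :
    TP P Y ≤ 21 / 20 * κ + C / Real.sqrt (Y / Real.exp 1) := by
  have hY0 : 0 < Y := (Real.exp_pos 1).trans_le hY
  set S := (ball t c (Real.exp 1 * Y)).filter P with hS
  have h1 : TP P Y ≤ ∑ z ∈ S, ((1 / ((20 : ℕ) : ℝ)) * ∑ j ∈ Icc (1 : ℕ) 20,
      (if -((j : ℝ) / (20 : ℕ)) < Real.log (nm z) - Real.log Y ∧
        Real.log (nm z) - Real.log Y ≤ (j : ℝ) / (20 : ℕ) then (1 : ℝ) else 0)) / nm z := by
    unfold TP
    apply sum_le_sum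
    intro z _
    unfold bg
    exact div_le_div_of_nonneg_right (w_le_step 20 (by norm_num) _) (Nat.cast_nonneg _)
  have h2 : ∑ z ∈ S, ((1 / ((20 : ℕ) : ℝ)) * ∑ j ∈ Icc (1 : ℕ) 20,
      (if -((j : ℝ) / (20 : ℕ)) < Real.log (nm z) - Real.log Y ∧
        Real.log (nm z) - Real.log Y ≤ (j : ℝ) / (20 : ℕ) then (1 : ℝ) else 0)) / nm z =
      (1 / ((20 : ℕ) : ℝ)) * ∑ j ∈ Icc (1 : ℕ) 20,
        ∑ z ∈ (ann t c (Y * Real.exp (-((j : ℝ) / (20 : ℕ))))
          (Y * Real.exp ((j : ℝ) / (20 : ℕ)))).filter P, 1 / (nm z : ℝ) := by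
    have h3 : ∀ j ∈ Icc (1 : ℕ) 20, ∑ z ∈ (ann t c (Y * Real.exp (-((j : ℝ) / (20 : ℕ))))
        (Y * Real.exp ((j : ℝ) / (20 : ℕ)))).filter P, 1 / (nm z : ℝ) =
        ∑ z ∈ S, (if -((j : ℝ) / (20 : ℕ)) < Real.log (nm z) - Real.log Y ∧
        Real.log (nm z) - Real.log Y ≤ (j : ℝ) / (20 : ℕ) then (1 : ℝ) else 0) / nm z := by
      intro j hj
      rw [mem_Icc] at hj
      rw [step_sumP hD P hY0]
      have : (j : ℝ) ≤ 20 := by exact_mod_cast hj.2
      push_cast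
      linarith
    rw [sum_congr rfl h3, sum_comm, mul_sum]
    apply sum_congr rfl
    intro z _
    rw [mul_div_assoc, sum_div]
  have h4 : ∀ j ∈ Icc (1 : ℕ) 20, ∑ z ∈ (ann t c (Y * Real.exp (-((j : ℝ) / (20 : ℕ))))
        (Y * Real.exp ((j : ℝ) / (20 : ℕ)))).filter P, 1 / (nm z : ℝ) ≤
        2 * κ * ((j : ℝ) / (20 : ℕ)) + C / Real.sqrt (Y / Real.exp 1) := by
    intro j hj
    rw [mem_Icc] at hj
    have hj' : (j : ℝ) ≤ 20 := by exact_mod_cast hj.2
    have := (abs_le.1 (ann_boundP P hC hl hY (θ := (j : ℝ) / (20 : ℕ)) (by positivity)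
      (by push_cast; linarith))).2
    linarith
  have h5 : ∑ j ∈ Icc (1 : ℕ) 20, (2 * κ * ((j : ℝ) / (20 : ℕ)) + C / Real.sqrt (Y / Real.exp 1)) =
      21 * κ + 20 * (C / Real.sqrt (Y / Real.exp 1)) := by
    rw [sum_add_distrib, ← mul_sum, ← sum_div, sum_const, Nat.card_Icc]
    have : ∑ j ∈ Icc (1 : ℕ) 20, (j : ℝ) = 210 := by
      have : ∑ j ∈ Icc (1 : ℕ) 20, j = 210 := by decide
      rw [← Nat.cast_sum, this]
      norm_num
    rw [this]
    norm_num
    ring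
  calc TP P Y ≤ _ := h1
    _ = _ := h2
    _ ≤ (1 / ((20 : ℕ) : ℝ)) * ∑ j ∈ Icc (1 : ℕ) 20,
        (2 * κ * ((j : ℝ) / (20 : ℕ)) + C / Real.sqrt (Y / Real.exp 1)) :=
        mul_le_mul_of_nonneg_left (sum_le_sum h4) (by positivity)
    _ = _ := by rw [h5]; push_cast; ring

open scoped Classical in
lemma le_TP (hD : t ^ 2 < 4 * c) (P : Qd t c → Prop) {κ C : ℝ} (hC : 0 < C) (hl : Asy P κ C)
    {Y : ℝ} (hY : Real.exp 1 ≤ Y) :
    19 / 20 * κ - C / Real.sqrt (Y / Real.exp 1) ≤ TP P Y := by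
  have hY0 : 0 < Y := (Real.exp_pos 1).trans_le hY
  set S := (ball t c (Real.exp 1 * Y)).filter P with hS
  have h1 : ∑ z ∈ S, ((1 / ((20 : ℕ) : ℝ)) * ∑ j ∈ range 20,
      (if -((j : ℝ) / (20 : ℕ)) < Real.log (nm z) - Real.log Y ∧
        Real.log (nm z) - Real.log Y ≤ (j : ℝ) / (20 : ℕ) then (1 : ℝ) else 0)) / nm z ≤
        TP P Y := by
    unfold TP
    apply sum_le_sum
    intro z _
    unfold bg
    exact div_le_div_of_nonneg_right (step_le_w 20 (by norm_num) _) (Nat.cast_nonneg _)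
  have h2 : ∑ z ∈ S, ((1 / ((20 : ℕ) : ℝ)) * ∑ j ∈ range 20,
      (if -((j : ℝ) / (20 : ℕ)) < Real.log (nm z) - Real.log Y ∧
        Real.log (nm z) - Real.log Y ≤ (j : ℝ) / (20 : ℕ) then (1 : ℝ) else 0)) / nm z =
      (1 / ((20 : ℕ) : ℝ)) * ∑ j ∈ range 20,
        ∑ z ∈ (ann t c (Y * Real.exp (-((j : ℝ) / (20 : ℕ))))
          (Y * Real.exp ((j : ℝ) / (20 : ℕ)))).filter P, 1 / (nm z : ℝ) := by
    have h3 : ∀ j ∈ range 20, ∑ z ∈ (ann t c (Y * Real.exp (-((j : ℝ) / (20 : ℕ))))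
        (Y * Real.exp ((j : ℝ) / (20 : ℕ)))).filter P, 1 / (nm z : ℝ) =
        ∑ z ∈ S, (if -((j : ℝ) / (20 : ℕ)) < Real.log (nm z) - Real.log Y ∧
        Real.log (nm z) - Real.log Y ≤ (j : ℝ) / (20 : ℕ) then (1 : ℝ) else 0) / nm z := by
      intro j hj
      rw [mem_range] at hj
      rw [step_sumP hD P hY0]
      have : (j : ℝ) ≤ 20 := by exact_mod_cast hj.le
      push_cast
      linarith
    rw [sum_congr rfl h3, sum_comm, mul_sum]
    apply sum_congr rfl
    intro z _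
    rw [mul_div_assoc, sum_div]
  have h4 : ∀ j ∈ range 20, 2 * κ * ((j : ℝ) / (20 : ℕ)) - C / Real.sqrt (Y / Real.exp 1) ≤
      ∑ z ∈ (ann t c (Y * Real.exp (-((j : ℝ) / (20 : ℕ))))
        (Y * Real.exp ((j : ℝ) / (20 : ℕ)))).filter P, 1 / (nm z : ℝ) := by
    intro j hj
    rw [mem_range] at hj
    have hj' : (j : ℝ) ≤ 20 := by exact_mod_cast hj.le
    have := (abs_le.1 (ann_boundP P hC hl hY (θ := (j : ℝ) / (20 : ℕ)) (by positivity)
      (by push_cast; linarith))).1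
    linarith
  have h5 : ∑ j ∈ range 20, (2 * κ * ((j : ℝ) / (20 : ℕ)) - C / Real.sqrt (Y / Real.exp 1)) =
      19 * κ - 20 * (C / Real.sqrt (Y / Real.exp 1)) := by
    rw [sum_sub_distrib, ← mul_sum, ← sum_div, sum_const, card_range]
    have : ∑ j ∈ range 20, (j : ℝ) = 190 := by
      have : ∑ j ∈ range 20, j = 190 := by decide
      rw [← Nat.cast_sum, this]
      norm_num
    rw [this]
    norm_num
    ring
  calc 19 / 20 * κ - C / Real.sqrt (Y / Real.exp 1) = (1 / ((20 : ℕ) : ℝ)) * ∑ j ∈ range 20,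
        (2 * κ * ((j : ℝ) / (20 : ℕ)) - C / Real.sqrt (Y / Real.exp 1)) := by
        rw [h5]; push_cast; ring
    _ ≤ _ := mul_le_mul_of_nonneg_left (sum_le_sum h4) (by positivity)
    _ = _ := h2.symm
    _ ≤ _ := h1

/-! ### multiples of a prime -/

lemma sum_dvdP (hD : t ^ 2 < 4 * c) (P : Qd t c → Prop) {Y : ℝ} (hY : 0 < Y) {p : ℕ} (hp : 0 < p)
    (hP : ∀ z : Qd t c, P ((p : Qd t c) * z) ↔ P z) :
    (open scoped Classical in
      ∑ z ∈ ((ball t c (Real.exp 1 * Y)).filter P).filter (fun z => ((p : Qd t c)) ∣ z),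
      bg Y z) = 1 / (p : ℝ) ^ 2 * TP P (Y / (p : ℝ) ^ 2) := by
  classical
  have hp' : (0 : ℝ) < p := by exact_mod_cast hp
  have hp0 : ((p : ℕ) : Qd t c) ≠ 0 := by exact_mod_cast hp.ne'
  have h1 : ((ball t c (Real.exp 1 * Y)).filter P).filter (fun z => ((p : Qd t c)) ∣ z) =
      ((ball t c (Real.exp 1 * (Y / (p : ℝ) ^ 2))).filter P).image (fun z => (p : Qd t c) * z) := by
    ext z
    rw [mem_filter, mem_filter, mem_ball hD, mem_image]
    constructor
    · rintro ⟨⟨⟨h1, h2⟩, h3⟩, u, rfl⟩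
      refine ⟨u, ?_, rfl⟩
      rw [nm_mul, nm_natCast] at h1 h2
      rw [mem_filter, mem_ball hD]
      refine ⟨⟨?_, ?_⟩, (hP u).1 h3⟩
      · rw [one_le_nm hD]
        rintro rfl
        rw [nm_zero] at h1
        omega
      · rw [← mul_div_assoc, le_div_iff₀ (by positivity)]
        push_cast at h2
        linarith
    · rintro ⟨u, hu, rfl⟩
      rw [mem_filter, mem_ball hD] at hu
      refine ⟨⟨⟨?_, ?_⟩, (hP u).2 hu.2⟩, dvd_mul_right _ _⟩
      · rw [one_le_nm hD]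
        intro h0
        exact (one_le_nm hD).1 hu.1.1 (natCast_mul_inj hp (by rw [h0, mul_zero]))
      · have h2 := hu.1.2
        rw [← mul_div_assoc, le_div_iff₀ (by positivity)] at h2
        rw [nm_mul, nm_natCast]
        push_cast
        linarith
  rw [h1, sum_image (fun x _ y _ h => natCast_mul_inj hp h)]
  unfold TP
  rw [mul_sum]
  apply sum_congr rfl
  intro z hz
  rw [mem_filter, mem_ball hD] at hz
  have hz1 : (0 : ℝ) < nm z := by exact_mod_cast hz.1.1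
  unfold bg
  rw [nm_mul, nm_natCast]
  push_cast
  rw [Real.log_mul (by positivity) hz1.ne', Real.log_div hY.ne' (by positivity)]
  have : Real.log ((p : ℝ) ^ 2) + Real.log (nm z) - Real.log Y =
      Real.log (nm z) - (Real.log Y - Real.log ((p : ℝ) ^ 2)) := by ring
  rw [this]
  field_simp

/-- the colour `q ∤ x` -/
def cq (t c : ℤ) (q : ℕ) (z : Qd t c) : Prop := ¬ (q : ℤ) ∣ z.re

lemma cq_mul {q p : ℕ} (hq : q.Prime) (hp : p.Prime) (hpq : p ≠ q) (z : Qd t c) :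
    cq t c q ((p : Qd t c) * z) ↔ cq t c q z := by
  unfold cq
  have h1 : ((p : Qd t c) * z).re = (p : ℤ) * z.re := by
    simp only [QuadraticAlgebra.re_mul, QuadraticAlgebra.re_natCast,
      QuadraticAlgebra.im_natCast, zero_mul, mul_zero, add_zero]
  rw [h1, not_iff_not]
  constructor
  · intro h
    have hcop : IsCoprime (q : ℤ) (p : ℤ) :=
      Nat.isCoprime_iff_coprime.2 ((Nat.coprime_primes hq hp).2 hpq.symm)
    exact hcop.dvd_of_dvd_mul_left h
  · intro h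
    exact Dvd.dvd.mul_left h _

lemma cq_not_dvd {q : ℕ} (z : Qd t c) (h : cq t c q z) : ¬ ((q : Qd t c)) ∣ z := by
  rintro ⟨u, rfl⟩
  apply h
  have h1 : ((q : Qd t c) * u).re = (q : ℤ) * u.re := by
    simp only [QuadraticAlgebra.re_mul, QuadraticAlgebra.re_natCast,
      QuadraticAlgebra.im_natCast, zero_mul, mul_zero, add_zero]
  rw [h1]
  exact dvd_mul_right _ _

/-- the asymptotic formula for the colour -/
lemma asy_cq (hlat : S_LAT t c) (q : ℕ) (hq : 1 ≤ q) :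
    ∃ C : ℝ, 0 < C ∧ (∀ A B : ℝ, 1 ≤ A → A ≤ B →
      |∑ z ∈ ann t c A B, 1 / (nm z : ℝ) - kap t c * Real.log (B / A)| ≤ C / Real.sqrt A) ∧
      Asy (cq t c q) (kap t c * (1 - 1 / q)) C := by
  classical
  obtain ⟨C, hC, -, hl⟩ := hlat
  have hall : ∀ A B : ℝ, 1 ≤ A → A ≤ B →
      |∑ z ∈ ann t c A B, 1 / (nm z : ℝ) - kap t c * Real.log (B / A)| ≤ C / Real.sqrt A := by
    intro A B hA hAB
    have h := hl A B 1 0 hA hAB le_rfl
    have e : (ann t c A B).filter (lat 1 0) = ann t c A B := by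
      apply Finset.filter_true_of_mem
      intro z _
      unfold lat
      simp
    rw [e] at h
    simpa using h
  refine ⟨2 * C, by positivity, fun A B hA hAB => ?_, fun A B hA hAB => ?_⟩
  · have := hall A B hA hAB
    have hs : 0 < Real.sqrt A := Real.sqrt_pos.2 (by linarith)
    refine this.trans ?_
    rw [mul_div_assoc]
    have : 0 ≤ C / Real.sqrt A := by positivity
    linarith
  · have h1 := hall A B hA hAB
    have h2 := hl A B q 0 hA hAB hq
    have h3 : ∑ z ∈ ann t c A B, 1 / (nm z : ℝ) =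
        ∑ z ∈ (ann t c A B).filter (lat q 0), 1 / (nm z : ℝ) +
        ∑ z ∈ (ann t c A B).filter (cq t c q), 1 / (nm z : ℝ) := by
      rw [← sum_filter_add_sum_filter_not (ann t c A B) (lat q 0)]
      congr 1
      apply sum_congr _ fun _ _ => rfl
      ext z
      rw [mem_filter, mem_filter]
      unfold lat cq
      simp
    have h4 : ∑ z ∈ (ann t c A B).filter (cq t c q), 1 / (nm z : ℝ) -
        kap t c * (1 - 1 / q) * Real.log (B / A) =
        (∑ z ∈ ann t c A B, 1 / (nm z : ℝ) - kap t c * Real.log (B / A)) -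
        (∑ z ∈ (ann t c A B).filter (lat q 0), 1 / (nm z : ℝ) -
          kap t c / q * Real.log (B / A)) := by
      rw [h3]; ring
    rw [h4]
    refine (abs_sub _ _).trans ?_
    rw [mul_div_assoc]
    linarith

lemma prime_sum' (n q : ℕ) (hq : q.Prime) (hq3 : q ≤ 3) :
    ∑ p ∈ ((range n).filter Nat.Prime).filter (fun p => p ≠ q), 1 / (p : ℝ) ^ 2 ≤ 0.3752 := by
  have h1 := prime_sum (n + 4)
  have hmem : q ∈ (range (n + 4)).filter Nat.Prime := by
    rw [mem_filter, mem_range]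
    exact ⟨by omega, hq⟩
  have h2 : ∑ p ∈ ((range n).filter Nat.Prime).filter (fun p => p ≠ q), 1 / (p : ℝ) ^ 2 ≤
      ∑ p ∈ ((range (n + 4)).filter Nat.Prime).erase q, 1 / (p : ℝ) ^ 2 := by
    apply sum_le_sum_of_subset_of_nonneg
    · intro p hp
      rw [mem_filter, mem_filter, mem_range] at hp
      rw [mem_erase, mem_filter, mem_range]
      exact ⟨hp.2, by omega, hp.1.2⟩
    · intro p _ _
      positivity
  have h3 := add_sum_erase ((range (n + 4)).filter Nat.Prime) (fun p : ℕ => 1 / (p : ℝ) ^ 2) hmem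
  have h4 : (1 / 9 : ℝ) ≤ 1 / (q : ℝ) ^ 2 := by
    have hq1 : (1 : ℝ) ≤ q := by exact_mod_cast hq.one_lt.le
    have hq2 : (q : ℝ) ≤ 3 := by exact_mod_cast hq3
    apply one_div_le_one_div_of_le (by positivity)
    nlinarith
  have h5 : (0.4862 : ℝ) - 1 / 9 ≤ 0.3752 := by norm_num
  linarith

/-- coloured primitive elements -/
theorem gen (hD : t ^ 2 < 4 * c) (hlat : S_LAT t c) (q : ℕ) (hq : q.Prime) (hq3 : q ≤ 3) :
    ∃ c₀ : ℝ, 0 < c₀ ∧ ∃ Y₀ : ℝ, ∀ Y : ℝ, Y₀ ≤ Y →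
      (open scoped Classical in
      c₀ ≤ ∑ z ∈ (pball t c (Real.exp 1 * Y)).filter (cq t c q), bg Y z) := by
  classical
  obtain ⟨C, hC, hall, hl⟩ := asy_cq hlat q hq.one_lt.le
  obtain ⟨D, hD0, hTD'⟩ := TT_bdd hD hC hall
  have hTD : ∀ Y, TP (cq t c q) Y ≤ D := fun Y => (TP_le_TT _ Y).trans (hTD' Y)
  have hκ0 := kap_pos hD
  have hq2 : (2 : ℝ) ≤ q := by exact_mod_cast hq.two_le
  have hκ : 0 < kap t c * (1 - 1 / (q : ℝ)) := by
    apply mul_pos hκ0
    have : 1 / (q : ℝ) ≤ 1 / 2 := one_div_le_one_div_of_le (by norm_num) hq2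
    linarith
  set κ := kap t c * (1 - 1 / (q : ℝ)) with hκdef
  set P : ℕ := ⌈200 * D / κ⌉₊ + 1 with hP
  have hP1 : 1 ≤ P := by omega
  have hPD : 200 * D ≤ κ * P := by
    have := Nat.le_ceil (200 * D / κ)
    rw [div_le_iff₀ hκ] at this
    rw [hP]; push_cast; nlinarith
  have hPpos : (0 : ℝ) < P := by exact_mod_cast hP1
  have he := Real.exp_pos 1
  set Y₀ : ℝ := (P : ℝ) ^ 2 * Real.exp 1 * (1 + (100 * C / κ) ^ 2) with hY₀
  refine ⟨κ / 4, by positivity, Y₀, ?_⟩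
  intro Y hY
  have hY0 : 0 < Y := lt_of_lt_of_le (by positivity) hY
  -- the window for small primes
  have hsmall : ∀ q : ℝ, 1 ≤ q → q ≤ P → Real.exp 1 ≤ Y / q ^ 2 ∧
      C / Real.sqrt (Y / q ^ 2 / Real.exp 1) ≤ κ / 100 := by
    intro q hq1 hq2
    have hq0 : 0 < q := by linarith
    have h1 : Real.exp 1 * (1 + (100 * C / κ) ^ 2) ≤ Y / q ^ 2 := by
      rw [le_div_iff₀ (by positivity)]
      refine le_trans ?_ hY
      rw [hY₀]
      have : q ^ 2 ≤ (P : ℝ) ^ 2 := pow_le_pow_left₀ hq0.le hq2 2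
      have h2 : 0 ≤ Real.exp 1 * (1 + (100 * C / κ) ^ 2) := by positivity
      nlinarith
    have h3 : 1 + (100 * C / κ) ^ 2 ≤ Y / q ^ 2 / Real.exp 1 := by
      rw [le_div_iff₀ he]; linarith
    refine ⟨?_, ?_⟩
    · refine le_trans ?_ h1
      have : 0 ≤ (100 * C / κ) ^ 2 := by positivity
      nlinarith
    · have h4 : 100 * C / κ ≤ Real.sqrt (Y / q ^ 2 / Real.exp 1) := by
        apply Real.le_sqrt_of_sq_le
        linarith
      have h5 : 0 < 100 * C / κ := by positivity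
      rw [div_le_iff₀ (by linarith)]
      rw [div_le_iff₀ hκ] at h4
      linarith
  have hY1 := hsmall 1 le_rfl (by exact_mod_cast hP1)
  rw [one_pow, div_one] at hY1
  have hlow := le_TP hD (cq t c q) hC hl hY1.1
  -- decomposition
  set n : ℕ := ⌊Real.exp 1 * Y⌋₊ + 1 with hn
  set S := (ball t c (Real.exp 1 * Y)).filter (cq t c q) with hS
  have hdec : TP (cq t c q) Y = ∑ z ∈ (pball t c (Real.exp 1 * Y)).filter (cq t c q), bg Y z +
      ∑ z ∈ S.filter (fun z => ¬ prim z), bg Y z := by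
    unfold TP pball
    rw [filter_comm, sum_filter_add_sum_filter_not]
  set Q := ((range n).filter Nat.Prime).filter (fun p => p ≠ q) with hQ
  have hnp : ∑ z ∈ S.filter (fun z => ¬ prim z), bg Y z ≤
      ∑ p ∈ Q, 1 / (p : ℝ) ^ 2 * TP (cq t c q) (Y / (p : ℝ) ^ 2) := by
    have h1 : ∀ p ∈ Q, 1 / (p : ℝ) ^ 2 * TP (cq t c q) (Y / (p : ℝ) ^ 2) =
        ∑ z ∈ S, (if ((p : Qd t c)) ∣ z then bg Y z else 0) := by
      intro p hp
      rw [hQ, mem_filter, mem_filter] at hp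
      rw [← sum_dvdP hD (cq t c q) hY0 hp.1.2.pos (cq_mul hq hp.1.2 hp.2), sum_filter]
    rw [sum_congr rfl h1, sum_comm, sum_filter]
    apply sum_le_sum
    intro z hz
    rw [hS, mem_filter, mem_ball hD] at hz
    have hnn : ∀ p ∈ Q, 0 ≤ (if ((p : Qd t c)) ∣ z then bg Y z else 0) := by
      intro p _
      split_ifs
      · exact bg_nonneg Y z
      · exact le_rfl
    by_cases h : prim z
    · rw [if_neg (not_not.2 h)]
      exact sum_nonneg hnn
    · rw [if_pos h]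
      rw [prim_iff] at h
      push Not at h
      obtain ⟨p, hp, hpz⟩ := h
      have hpq : p ≠ q := by
        rintro rfl
        exact cq_not_dvd z hz.2 hpz
      have h2 : p ^ 2 ∣ nm z := by
        have := nm_dvd hpz
        rwa [nm_natCast] at this
      have h3 : p ^ 2 ≤ nm z := Nat.le_of_dvd hz.1.1 h2
      have h4 : nm z ≤ ⌊Real.exp 1 * Y⌋₊ := Nat.le_floor hz.1.2
      have h5 : p ≤ p ^ 2 := Nat.le_self_pow two_ne_zero p
      have hpm : p ∈ Q := by
        rw [hQ, mem_filter, mem_filter, mem_range]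
        exact ⟨⟨by omega, hp⟩, hpq⟩
      have h6 := single_le_sum hnn hpm
      rw [if_pos hpz] at h6
      exact h6
  have hterm : ∀ p ∈ Q, 1 / (p : ℝ) ^ 2 * TP (cq t c q) (Y / (p : ℝ) ^ 2) ≤
      (21 / 20 * κ + κ / 100) * (1 / (p : ℝ) ^ 2) +
        (if P < p then D * ((p : ℝ) ^ 2)⁻¹ else 0) := by
    intro p hp
    rw [hQ, mem_filter, mem_filter] at hp
    have hp1 : (1 : ℝ) ≤ p := by exact_mod_cast hp.1.2.one_lt.le
    have hp2 : 0 < 1 / (p : ℝ) ^ 2 := by positivity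
    split_ifs with h
    · have h1 := hTD (Y / (p : ℝ) ^ 2)
      have h2 : 1 / (p : ℝ) ^ 2 * TP (cq t c q) (Y / (p : ℝ) ^ 2) ≤ 1 / (p : ℝ) ^ 2 * D :=
        mul_le_mul_of_nonneg_left h1 hp2.le
      have h3 : 1 / (p : ℝ) ^ 2 * D = D * ((p : ℝ) ^ 2)⁻¹ := by rw [one_div, mul_comm]
      have h4 : 0 ≤ (21 / 20 * κ + κ / 100) * (1 / (p : ℝ) ^ 2) := by positivity
      linarith
    · have h1 := hsmall p hp1 (by exact_mod_cast not_lt.1 h)
      have h2 := TP_le hD (cq t c q) hC hl h1.1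
      have h3 : TP (cq t c q) (Y / (p : ℝ) ^ 2) ≤ 21 / 20 * κ + κ / 100 := by linarith [h1.2]
      rw [add_zero, mul_comm]
      exact mul_le_mul_of_nonneg_right h3 hp2.le
  have htail : ∑ p ∈ Q, (if P < p then D * ((p : ℝ) ^ 2)⁻¹ else 0) ≤ κ / 100 := by
    calc ∑ p ∈ Q, (if P < p then D * ((p : ℝ) ^ 2)⁻¹ else 0)
        ≤ ∑ p ∈ range n, (if P < p then D * ((p : ℝ) ^ 2)⁻¹ else 0) := by
          apply sum_le_sum_of_subset_of_nonneg
            ((filter_subset _ _).trans (filter_subset _ _))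
          intro p _ _
          split_ifs
          · positivity
          · exact le_rfl
      _ = ∑ p ∈ (range n).filter (fun p => P < p), D * ((p : ℝ) ^ 2)⁻¹ := by rw [sum_filter]
      _ = D * ∑ p ∈ Ioo P n, ((p : ℝ) ^ 2)⁻¹ := by
          rw [mul_sum]
          apply sum_congr _ fun _ _ => rfl
          ext p
          simp only [mem_filter, mem_range, mem_Ioo]
          tauto
      _ ≤ D * (2 / ((P : ℝ) + 1)) := mul_le_mul_of_nonneg_left (sum_Ioo_inv_sq_le P n) hD0.le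
      _ ≤ κ / 100 := by
          rw [← mul_div_assoc, div_le_iff₀ (by positivity)]
          nlinarith
  have hsum : ∑ p ∈ Q, 1 / (p : ℝ) ^ 2 * TP (cq t c q) (Y / (p : ℝ) ^ 2) ≤
      (21 / 20 * κ + κ / 100) * 0.3752 + κ / 100 := by
    refine (sum_le_sum hterm).trans ?_
    rw [sum_add_distrib, ← mul_sum]
    have := prime_sum' n q hq hq3
    have h2 : (21 / 20 * κ + κ / 100) * ∑ p ∈ Q, 1 / (p : ℝ) ^ 2 ≤
        (21 / 20 * κ + κ / 100) * 0.3752 := mul_le_mul_of_nonneg_left this (by positivity)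
    linarith
  have hfin : TP (cq t c q) Y - ((21 / 20 * κ + κ / 100) * 0.3752 + κ / 100) ≤
      ∑ z ∈ (pball t c (Real.exp 1 * Y)).filter (cq t c q), bg Y z := by linarith
  have h7 := hY1.2
  norm_num at hfin
  linarith

/-- GC-6 -/
theorem a03 (hlat : S_LAT 3 3) : S_A0C col3 := by
  obtain ⟨c₀, hc₀, Y₀, h⟩ := gen (t := 3) (c := 3) (by norm_num) hlat 3 Nat.prime_three le_rfl
  refine ⟨c₀, hc₀, Y₀, fun Y hY => ?_⟩
  exact h Y hY

/-- the doubling of the second coordinate -/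
def dbl (z : Qd 0 4) : Qd 0 1 := ⟨z.re, 2 * z.im⟩

lemma dbl_inj : Function.Injective dbl := by
  intro x y h
  have h1 := congrArg QuadraticAlgebra.re h
  have h2 := congrArg QuadraticAlgebra.im h
  simp only [dbl] at h1 h2
  apply QuadraticAlgebra.ext
  · exact h1
  · omega

lemma nm_dbl (z : Qd 0 4) : nm (dbl z) = nm z := by
  unfold nm dbl
  congr 1
  ring

lemma bg_dbl (Y : ℝ) (z : Qd 0 4) : bg Y (dbl z) = bg Y z := by
  unfold bg
  rw [nm_dbl]

lemma prim_dbl (z : Qd 0 4) (h : Odd z.re) : prim (dbl z) ↔ prim z := by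
  unfold prim dbl
  simp only
  have h1 : IsCoprime z.re 2 := by
    rw [Int.isCoprime_iff_gcd_eq_one, ← Int.gcd_comm]
    exact Int.isCoprime_iff_gcd_eq_one.1 (Int.isCoprime_two_left.2 h)
  rw [← Int.isCoprime_iff_gcd_eq_one, ← Int.isCoprime_iff_gcd_eq_one]
  constructor
  · intro h2
    exact (IsCoprime.mul_right_iff.1 h2).2
  · intro h2
    exact IsCoprime.mul_right h1 h2

/-- GC-5 -/
theorem a0e (hlat : S_LAT 0 4) : S_A0C col1 := by
  classical
  obtain ⟨c₀, hc₀, Y₀, h⟩ := gen (t := 0) (c := 4) (by norm_num) hlat 2 Nat.prime_two (by norm_num)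
  refine ⟨c₀, hc₀, Y₀, fun Y hY => ?_⟩
  have h1 := h Y hY
  refine h1.trans (le_of_eq ?_)
  have h2 : cball col1 (Real.exp 1 * Y) =
      ((pball 0 4 (Real.exp 1 * Y)).filter (cq 0 4 2)).image dbl := by
    ext z
    unfold cball pball
    rw [mem_filter, mem_filter, mem_ball (by norm_num), mem_image]
    constructor
    · rintro ⟨⟨⟨a, b⟩, hp⟩, ho, k, hk⟩
      have hz : dbl ⟨z.re, k⟩ = z := by
        unfold dbl
        apply QuadraticAlgebra.ext
        · rfl
        · simp only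
          omega
      refine ⟨⟨z.re, k⟩, ?_, hz⟩
      rw [mem_filter, mem_filter, mem_ball (by norm_num), ← nm_dbl, ← prim_dbl _ ho, hz]
      refine ⟨⟨⟨a, b⟩, hp⟩, ?_⟩
      unfold cq
      intro hd
      rw [← Int.not_even_iff_odd, even_iff_two_dvd] at ho
      exact ho hd
    · rintro ⟨v, hv, rfl⟩
      rw [mem_filter, mem_filter, mem_ball (by norm_num)] at hv
      have ho : Odd v.re := by
        rw [← Int.not_even_iff_odd, even_iff_two_dvd]
        exact hv.2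
      rw [nm_dbl, prim_dbl _ ho]
      exact ⟨hv.1, ho, ⟨v.im, by simp only [dbl]; ring⟩⟩
  rw [h2, sum_image (fun x _ y _ h => dbl_inj h)]
  exact sum_congr rfl fun z _ => (bg_dbl Y z).symm

end Pool.Agent.W578.GC.A0C
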